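import Mathlib

/-!
A simple sieve: for many `t`, both `(10t)^2+1` and `(10t+1)^2+1` are squarefree and coprime.
-/

set_option autoImplicit false

open Finset Filter

namespace Pool.Agent.Lib.MP_e6b4b8_nt

lemma card_le_of_modEq (S : Finset ℕ) (x q : ℕ) (hS : ∀ t ∈ S, t < x)
    (h : ∀ s ∈ S, ∀ t ∈ S, (q : ℤ) ∣ (s : ℤ) - t) : S.card ≤ x / q + 1 := by
  have : S.card ≤ (range (x / q + 1)).card := by
    refine card_le_card_of_injOn (fun t => t / q) (fun t ht => ?_) (fun s hs t ht hst => ?_)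
    · simp only [coe_range, Set.mem_Iio]
      exact Nat.lt_succ_of_le (Nat.div_le_div_right (hS t ht).le)
    · have h1 : t ≡ s [MOD q] := (Nat.modEq_iff_dvd).2 (h s hs t ht)
      have h2 := Nat.div_add_mod s q
      have h3 := Nat.div_add_mod t q
      unfold Nat.ModEq at h1
      simp only at hst
      rw [hst] at h2
      omega
  simpa using this

lemma card_sol_le (p c x : ℕ) (hp : p.Prime) (h7 : 7 ≤ p) :
    ((range x).filter fun t => p * p ∣ (10 * t + c) ^ 2 + 1).card ≤ 2 * (x / (p * p) + 1) := by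
  classical
  set S := (range x).filter fun t => p * p ∣ (10 * t + c) ^ 2 + 1 with hS
  rcases S.eq_empty_or_nonempty with h | ⟨t₀, ht₀⟩
  · simp [h]
  have hpZ : Prime (p : ℤ) := Nat.prime_iff_prime_int.1 hp
  have hq : 0 < p * p := Nat.mul_pos hp.pos hp.pos
  have hmem : ∀ t ∈ S, t < x ∧ ((p : ℤ) * p) ∣ (10 * (t : ℤ) + c) ^ 2 + 1 := by
    intro t ht
    rw [hS, mem_filter, mem_range] at ht
    exact ⟨ht.1, by exact_mod_cast ht.2⟩
  have hcop : IsCoprime ((p : ℤ) * p) 10 := by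
    have h2 : Nat.Coprime p 2 := (Nat.coprime_primes hp Nat.prime_two).2 (by omega)
    have h5 : Nat.Coprime p 5 := (Nat.coprime_primes hp Nat.prime_five).2 (by omega)
    have h10 : Nat.Coprime p 10 := Nat.Coprime.mul_right h2 h5
    have : Nat.Coprime (p * p) 10 := Nat.Coprime.mul_left h10 h10
    exact_mod_cast Nat.isCoprime_iff_coprime.2 this
  set a : ℤ := 10 * (t₀ : ℤ) + c with ha
  have hsplit : S ⊆ (S.filter fun t : ℕ => ((p : ℤ) * p) ∣ (10 * (t : ℤ) + c) - a) ∪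
      (S.filter fun t : ℕ => ((p : ℤ) * p) ∣ (10 * (t : ℤ) + c) + a) := by
    intro t ht
    set b : ℤ := 10 * (t : ℤ) + c with hb
    have h1 := (hmem t ht).2
    have h2 := (hmem t₀ ht₀).2
    have h3 : ((p : ℤ) * p) ∣ (b - a) * (b + a) := by
      have := dvd_sub h1 h2
      have e : b ^ 2 + 1 - (a ^ 2 + 1) = (b - a) * (b + a) := by ring
      rwa [e] at this
    by_cases hd : (p : ℤ) ∣ b + a
    · refine mem_union_right _ (mem_filter.2 ⟨ht, ?_⟩)
      have hn : ¬ (p : ℤ) ∣ b - a := by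
        intro hd'
        have h4 : (p : ℤ) ∣ 2 * a := by
          have := dvd_sub hd hd'
          have e : b + a - (b - a) = 2 * a := by ring
          rwa [e] at this
        rcases hpZ.dvd_or_dvd h4 with h5 | h5
        · have : p ∣ 2 := by exact_mod_cast h5
          have := Nat.le_of_dvd (by norm_num) this
          omega
        · have h6 : (p : ℤ) ∣ a ^ 2 + 1 := (dvd_mul_right _ _).trans h2
          have h7 : (p : ℤ) ∣ a ^ 2 := dvd_pow h5 (by norm_num)
          have h8 : (p : ℤ) ∣ 1 := (dvd_add_right h7).1 h6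
          exact hpZ.not_dvd_one h8
      have hc : IsCoprime ((p : ℤ) * p) (b - a) :=
        IsCoprime.mul_left ((hpZ.irreducible.coprime_iff_not_dvd).2 hn)
          ((hpZ.irreducible.coprime_iff_not_dvd).2 hn)
      exact hc.dvd_of_dvd_mul_left h3
    · refine mem_union_left _ (mem_filter.2 ⟨ht, ?_⟩)
      have hc : IsCoprime ((p : ℤ) * p) (b + a) :=
        IsCoprime.mul_left ((hpZ.irreducible.coprime_iff_not_dvd).2 hd)
          ((hpZ.irreducible.coprime_iff_not_dvd).2 hd)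
      exact hc.dvd_of_dvd_mul_right h3
  have key : ∀ e : ℤ, (S.filter fun t : ℕ => ((p : ℤ) * p) ∣ (10 * (t : ℤ) + c) + e).card ≤
      x / (p * p) + 1 := by
    intro e
    refine card_le_of_modEq _ x (p * p) (fun t ht => (hmem t (mem_filter.1 ht).1).1) ?_
    intro s hs t ht
    have h1 := dvd_sub (mem_filter.1 hs).2 (mem_filter.1 ht).2
    have e1 : 10 * (s : ℤ) + c + e - (10 * (t : ℤ) + c + e) = 10 * ((s : ℤ) - t) := by ring
    rw [e1] at h1
    push_cast
    exact hcop.dvd_of_dvd_mul_left h1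
  have k1 := key (-a)
  have k2 := key a
  simp only [← sub_eq_add_neg] at k1
  have := (card_le_card hsplit).trans (card_union_le _ _)
  omega

/-- `t` is good if the product of the two values is squarefree. -/
def GoodT (t : ℕ) : Prop := Squarefree (((10 * t) ^ 2 + 1) * ((10 * t + 1) ^ 2 + 1))

lemma exists_prime_of_not_good {t : ℕ} (h : ¬ GoodT t) :
    ∃ p, p.Prime ∧ 7 ≤ p ∧ p ≤ 10 * t + 1 ∧
      (p * p ∣ (10 * t + 0) ^ 2 + 1 ∨ p * p ∣ (10 * t + 1) ^ 2 + 1) := by
  unfold GoodT at h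
  rw [Nat.squarefree_iff_prime_squarefree] at h
  push Not at h
  obtain ⟨p, hp, hd⟩ := h
  have hcop : Nat.Coprime ((10 * t) ^ 2 + 1) ((10 * t + 1) ^ 2 + 1) := by
    rw [Nat.coprime_iff_gcd_eq_one]
    set g := Nat.gcd ((10 * t) ^ 2 + 1) ((10 * t + 1) ^ 2 + 1)
    have h1 : (g : ℤ) ∣ (10 * (t : ℤ)) ^ 2 + 1 := by exact_mod_cast Nat.gcd_dvd_left _ _
    have h2 : (g : ℤ) ∣ (10 * (t : ℤ) + 1) ^ 2 + 1 := by exact_mod_cast Nat.gcd_dvd_right _ _
    have h3 : (g : ℤ) ∣ 5 := by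
      have e : (5 : ℤ) = (20 * t + 3) * ((10 * (t : ℤ)) ^ 2 + 1) -
          (20 * t - 1) * ((10 * (t : ℤ) + 1) ^ 2 + 1) := by ring
      rw [e]
      exact dvd_sub (h1.mul_left _) (h2.mul_left _)
    have h4 : (g : ℤ) ∣ 1 := by
      have e : (1 : ℤ) = ((10 * (t : ℤ)) ^ 2 + 1) - (20 * t ^ 2) * 5 := by ring
      rw [e]
      exact dvd_sub h1 (h3.mul_left _)
    exact Nat.dvd_one.1 (by exact_mod_cast h4)
  have hor : p * p ∣ (10 * t) ^ 2 + 1 ∨ p * p ∣ (10 * t + 1) ^ 2 + 1 := by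
    by_cases h1 : p ∣ (10 * t) ^ 2 + 1
    · left
      have h2 : Nat.Coprime p ((10 * t + 1) ^ 2 + 1) := hcop.coprime_dvd_left h1
      exact (Nat.Coprime.mul_left h2 h2).dvd_of_dvd_mul_right hd
    · right
      have h2 : Nat.Coprime p ((10 * t) ^ 2 + 1) := (Nat.Prime.coprime_iff_not_dvd hp).2 h1
      exact (Nat.Coprime.mul_left h2 h2).dvd_of_dvd_mul_left hd
  have hle : p ≤ 10 * t + 1 := by
    have h1 : p * p ≤ (10 * t + 1) ^ 2 + 1 := by
      rcases hor with h | h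
      · exact (Nat.le_of_dvd (by positivity) h).trans (by gcongr; omega)
      · exact Nat.le_of_dvd (by positivity) h
    by_contra hc
    have : 10 * t + 2 ≤ p := by omega
    nlinarith
  refine ⟨p, hp, ?_, hle, by simpa using hor⟩
  by_contra hc
  have h2 := hp.two_le
  have h3 : ∀ n : ℕ, ¬ 3 ∣ n ^ 2 + 1 := by
    intro n hn
    have : n % 3 = 0 ∨ n % 3 = 1 ∨ n % 3 = 2 := by omega
    rw [Nat.dvd_iff_mod_eq_zero] at hn
    rcases this with h | h | h <;> simp [pow_two, Nat.add_mod, Nat.mul_mod, h] at hn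
  have e1 : (10 * t) ^ 2 + 1 = 100 * (t * t) + 1 := by ring
  have e2 : (10 * t + 1) ^ 2 + 1 = 100 * (t * t) + 20 * t + 2 := by ring
  have hp7 : p < 7 := by omega
  interval_cases p
  · rw [e1, e2] at hor; omega
  · rcases hor with h | h
    · exact h3 _ ((dvd_mul_right 3 3).trans h)
    · exact h3 _ ((dvd_mul_right 3 3).trans h)
  · exact absurd hp (by norm_num)
  · rw [e1, e2] at hor; omega
  · exact absurd hp (by norm_num)

open Classical in
lemma card_bad_le (x : ℕ) :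
    (((range x).filter fun t => ¬ GoodT t).card : ℝ) ≤
      2 / 3 * x + 4 * Nat.primeCounting (10 * x + 7) := by
  set P := (Ioc 6 (10 * x + 7)).filter Nat.Prime with hP
  have hsub : ((range x).filter fun t => ¬ GoodT t) ⊆ P.biUnion fun p =>
      ((range x).filter fun t => p * p ∣ (10 * t + 0) ^ 2 + 1) ∪
      ((range x).filter fun t => p * p ∣ (10 * t + 1) ^ 2 + 1) := by
    intro t ht
    rw [mem_filter, mem_range] at ht
    obtain ⟨p, hp, h7, hle, hor⟩ := exists_prime_of_not_good ht.2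
    simp only [mem_biUnion, mem_union, mem_filter, mem_range, hP, mem_Ioc]
    refine ⟨p, ⟨⟨by omega, by omega⟩, hp⟩, ?_⟩
    rcases hor with h | h
    · exact Or.inl ⟨ht.1, h⟩
    · exact Or.inr ⟨ht.1, h⟩
  have h1 : ((range x).filter fun t => ¬ GoodT t).card ≤ ∑ p ∈ P, 4 * (x / (p * p) + 1) := by
    refine (card_le_card hsub).trans (card_biUnion_le.trans (sum_le_sum fun p hp => ?_))
    rw [hP, mem_filter, mem_Ioc] at hp
    have a1 := card_sol_le p 0 x hp.2 (by omega)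
    have a2 := card_sol_le p 1 x hp.2 (by omega)
    have := card_union_le ((range x).filter fun t => p * p ∣ (10 * t + 0) ^ 2 + 1)
      ((range x).filter fun t => p * p ∣ (10 * t + 1) ^ 2 + 1)
    omega
  have h2 : ((∑ p ∈ P, 4 * (x / (p * p) + 1) : ℕ) : ℝ) ≤
      ∑ p ∈ P, (4 * x * ((p : ℝ) ^ 2)⁻¹ + 4) := by
    push_cast
    refine sum_le_sum fun p _ => ?_
    have : ((x / (p * p) : ℕ) : ℝ) ≤ x / ((p * p : ℕ) : ℝ) := Nat.cast_div_le
    rw [div_eq_mul_inv, Nat.cast_mul, ← sq (p : ℝ)] at this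
    linarith
  have h3 : ∑ p ∈ P, ((p : ℝ) ^ 2)⁻¹ ≤ 1 / 6 := by
    have a1 : ∑ p ∈ P, ((p : ℝ) ^ 2)⁻¹ ≤ ∑ p ∈ Ioc 6 (10 * x + 7), ((p : ℝ) ^ 2)⁻¹ :=
      sum_le_sum_of_subset_of_nonneg (filter_subset _ _) fun _ _ _ => by positivity
    have a2 := sum_Ioc_inv_sq_le_sub (α := ℝ) (k := 6) (n := 10 * x + 7) (by norm_num) (by omega)
    have a3 : (0 : ℝ) ≤ (((10 * x + 7 : ℕ) : ℝ))⁻¹ := by positivity
    push_cast at a2 a3
    linarith
  have h4 : P.card ≤ Nat.primeCounting (10 * x + 7) := by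
    rw [← Nat.primesLE_card_eq_primeCounting]
    refine card_le_card fun p hp => ?_
    rw [hP, mem_filter, mem_Ioc] at hp
    exact Nat.mem_primesLE.2 ⟨hp.1.2, hp.2⟩
  have h4' : (P.card : ℝ) ≤ Nat.primeCounting (10 * x + 7) := by exact_mod_cast h4
  have h5 : ∑ p ∈ P, (4 * x * ((p : ℝ) ^ 2)⁻¹ + 4) =
      4 * x * ∑ p ∈ P, ((p : ℝ) ^ 2)⁻¹ + 4 * P.card := by
    rw [sum_add_distrib, ← mul_sum, sum_const, nsmul_eq_mul]; ring
  have h6 : (((range x).filter fun t => ¬ GoodT t).card : ℝ) ≤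
      ((∑ p ∈ P, 4 * (x / (p * p) + 1) : ℕ) : ℝ) := by exact_mod_cast h1
  have hx : (0 : ℝ) ≤ x := by positivity
  nlinarith

lemma eventually_pi_le : ∀ᶠ x : ℕ in atTop, (Nat.primeCounting (10 * x + 7) : ℝ) ≤ x / 24 := by
  have h1 := Chebyshev.eventually_primeCounting_le (ε := 1) one_pos
  have h2 : ∀ᶠ y : ℝ in atTop, 300 * (Real.log 4 + 1) ≤ Real.log y :=
    Real.tendsto_log_atTop.eventually_ge_atTop _
  have ht : Tendsto (fun x : ℕ => ((10 * x + 7 : ℕ) : ℝ)) atTop atTop :=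
    tendsto_natCast_atTop_atTop.comp (tendsto_atTop_mono (fun x => by simp only [id]; omega)
      tendsto_id)
  filter_upwards [ht.eventually h1, ht.eventually h2, eventually_ge_atTop 7] with x a1 a2 a3
  rw [Nat.floor_natCast] at a1
  have hl : 0 < Real.log 4 + 1 := by have := Real.log_pos (show (1 : ℝ) < 4 by norm_num); linarith
  have hx : (7 : ℝ) ≤ x := by exact_mod_cast a3
  refine a1.trans ?_
  rw [div_le_iff₀ (by linarith)]
  push_cast at a2 ⊢
  nlinarith

open Classical in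
lemma eventually_card_good : ∀ᶠ x : ℕ in atTop,
    (x : ℝ) / 6 ≤ (((range x).filter GoodT).card : ℝ) := by
  filter_upwards [eventually_pi_le] with x hx
  have h1 := card_bad_le x
  have h2 : ((range x).filter GoodT).card + ((range x).filter fun t => ¬ GoodT t).card = x := by
    rw [card_filter_add_card_filter_not, card_range]
  have h3 : (((range x).filter GoodT).card : ℝ) +
      (((range x).filter fun t => ¬ GoodT t).card : ℝ) = x := by exact_mod_cast h2
  linarith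

open ArithmeticFunction in
lemma moebius_of_good {t : ℕ} (h : GoodT t) :
    moebius ((10 * t) ^ 2 + 1) = 1 ∨ moebius ((10 * t + 1) ^ 2 + 1) = 1 ∨
      moebius (((10 * t) ^ 2 + 10 * t + 1) ^ 2 + 1) = 1 := by
  unfold GoodT at h
  have e : ((10 * t) ^ 2 + 10 * t + 1) ^ 2 + 1 = ((10 * t) ^ 2 + 1) * ((10 * t + 1) ^ 2 + 1) := by
    ring
  obtain ⟨hc, h1, h2⟩ := Nat.squarefree_mul_iff.1 h
  rw [e, isMultiplicative_moebius.map_mul_of_coprime hc]
  rcases moebius_ne_zero_iff_eq_or.1 (moebius_ne_zero_iff_squarefree.2 h1) with a | a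
  · exact Or.inl a
  rcases moebius_ne_zero_iff_eq_or.1 (moebius_ne_zero_iff_squarefree.2 h2) with b | b
  · exact Or.inr (Or.inl b)
  right; right
  rw [a, b]; norm_num

end Pool.Agent.Lib.MP_e6b4b8_nt
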